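import Mathlib
import Pool.Agent.H28.Mero

set_option autoImplicit false

open scoped Topology
open Pool.Agent.H28.Mero

namespace Pool.Agent.Results.MP_5915c0_an.Minimal

/-- The product of two Heisenberg hypersurfaces in `ℂ⁴`. -/
def M : Set (Fin 4 → ℂ) := {w | (w 0).im = ‖w 1‖ ^ 2 ∧ (w 2).im = ‖w 3‖ ^ 2}

/-- The product of two Siegel domains, a wedge with edge `M`. -/
def W : Set (Fin 4 → ℂ) := {w | ‖w 1‖ ^ 2 < (w 0).im ∧ ‖w 3‖ ^ 2 < (w 2).im}

theorem result : ∃ (p g : (Fin 4 → ℂ) → EuclideanSpace ℂ (Fin 5)) (q : (Fin 4 → ℂ) → ℂ),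
    AnalyticOnNhd ℂ p Set.univ ∧ AnalyticOnNhd ℂ q Set.univ ∧ (∀ w ∈ W, q w ≠ 0) ∧
    AnalyticOnNhd ℂ g W ∧ (∀ w ∈ W, q w • g w = p w) ∧ (∀ w ∈ W, ‖g w‖ < 1) ∧
    (∀ m ∈ M, Filter.Tendsto (fun w => ‖g w‖) (𝓝[W] m) (𝓝 1)) ∧
    ¬ ∃ V ∈ 𝓝 (0 : Fin 4 → ℂ), ∃ F : (Fin 4 → ℂ) → EuclideanSpace ℂ (Fin 5),
      AnalyticOnNhd ℂ F V ∧ ∀ w ∈ V, w ∈ W → F w = g w := by
  refine ⟨pp, gg, qq, fun x _ => an_pp x, fun x _ => an_qq x, fun w hw => qq_ne w hw.1 hw.2,
    fun w hw => an_gg w (qq_ne w hw.1 hw.2), ?_, fun w hw => gg_lt w hw.1 hw.2, ?_, ?_⟩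
  · intro w hw
    unfold gg
    rw [smul_smul, mul_inv_cancel₀ (qq_ne w hw.1 hw.2), one_smul]
  · intro m hm
    have h0 : 0 ≤ (m 0).im := by rw [hm.1]; positivity
    have h1 : 0 ≤ (m 2).im := by rw [hm.2]; positivity
    by_cases hd : den m = 0
    · have hm0 := den_zero m h0 h1 hd
      have hl : Filter.Tendsto (fun w : Fin 4 → ℂ => ‖Complex.I + w 0‖⁻¹) (𝓝 m) (𝓝 1) := by
        have c1 : ContinuousAt (fun w : Fin 4 → ℂ => ‖Complex.I + w 0‖⁻¹) m := by
          apply ContinuousAt.inv₀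
          · exact (continuous_const.add (continuous_apply (0 : Fin 4))).norm.continuousAt
          · simp [hm0]
        have := c1.tendsto
        simpa [hm0] using this
      refine tendsto_of_tendsto_of_tendsto_of_le_of_le' (hl.mono_left nhdsWithin_le_nhds)
        tendsto_const_nhds ?_ ?_
      · filter_upwards [self_mem_nhdsWithin] with w hw
        exact gg_ge w (qq_ne w hw.1 hw.2)
      · filter_upwards [self_mem_nhdsWithin] with w hw
        exact (gg_lt w hw.1 hw.2).le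
    · have hq : qq m ≠ 0 := mul_ne_zero (ne_of_im _ h0) hd
      have c1 := (an_gg m hq).continuousAt.norm.tendsto
      rw [gg_one m hm.1 hm.2 hq] at c1
      exact c1.mono_left nhdsWithin_le_nhds
  · rintro ⟨V, hV, F, hF, hFg⟩
    obtain ⟨r, hr, hrV⟩ := Metric.mem_nhds_iff.1 hV
    set K : (Fin 4 → ℂ) → ℂ := fun w => qq w * (F w) 2 - w 0 * num w with hK
    have hKa : AnalyticOnNhd ℂ K (Metric.ball 0 r) := by
      intro x hx
      have a1 : AnalyticAt ℂ (fun w => (F w) 2) x :=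
        ((EuclideanSpace.proj (𝕜 := ℂ) (2 : Fin 5)).analyticAt (F x)).comp (hF x (hrV hx))
      exact ((an_qq x).mul a1).sub ((an_coord 0 x).mul (an_num x))
    set t : ℂ := ((r / 2 : ℝ) : ℂ) with ht
    have hnt : ‖t‖ = r / 2 := by rw [ht, Complex.norm_real, Real.norm_of_nonneg (by positivity)]
    have hx0 : (![t * Complex.I, 0, t * Complex.I, 0] : Fin 4 → ℂ) ∈
        Metric.ball (0 : Fin 4 → ℂ) r := by
      rw [mem_ball_zero_iff, pi_norm_lt_iff hr]
      intro i
      fin_cases i <;> simp [hnt, hr]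
    have hev : K =ᶠ[𝓝 (![t * Complex.I, 0, t * Complex.I, 0] : Fin 4 → ℂ)] 0 := by
      have o1 : IsOpen W :=
        (isOpen_lt ((continuous_apply (1 : Fin 4)).norm.pow 2)
          (Complex.continuous_im.comp (continuous_apply (0 : Fin 4)))).inter
        (isOpen_lt ((continuous_apply (3 : Fin 4)).norm.pow 2)
          (Complex.continuous_im.comp (continuous_apply (2 : Fin 4))))
      have m1 : (![t * Complex.I, 0, t * Complex.I, 0] : Fin 4 → ℂ) ∈ W := by
        constructor <;> simpa [ht] using hr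
      filter_upwards [o1.mem_nhds m1, Metric.isOpen_ball.mem_nhds hx0] with w hw hwb
      have e := hFg w (hrV hwb) hw
      have h1 := qq_ne w hw.1 hw.2
      simp only [hK, e, gg, pp, smul_vec, vec_two, Pi.zero_apply]
      field_simp
      ring
    have hz := hKa.eqOn_zero_of_preconnected_of_eventuallyEq_zero
      (convex_ball (0 : Fin 4 → ℂ) r).isPreconnected hx0 hev
    have ht0 : t ≠ 0 := by rw [ht]; exact_mod_cast (by positivity : r / 2 ≠ 0)
    have hti : Complex.I + t ≠ 0 := ne_of_im _ (by simp [ht])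
    have hn1 : 1 ≤ ‖Complex.I + t‖ := by
      have := Complex.abs_im_le_norm (Complex.I + t)
      simpa [ht] using this
    set s : ℂ := -Complex.I * t / (Complex.I + t) with hs
    have hsn : ‖s‖ < r := by
      rw [hs, norm_div, norm_mul, norm_neg, Complex.norm_I, one_mul, hnt, div_lt_iff₀ (by linarith)]
      nlinarith
    have hy : (![t, 0, s, 0] : Fin 4 → ℂ) ∈ Metric.ball (0 : Fin 4 → ℂ) r := by
      rw [mem_ball_zero_iff, pi_norm_lt_iff hr]
      intro i
      fin_cases i <;> simp [hnt, hr, hsn]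
    have e := hz hy
    have hd0 : t * s + Complex.I * (t + s) = 0 := by
      rw [hs]
      field_simp
      ring_nf
    have hd : den ![t, 0, s, 0] = 0 := by simpa [den] using hd0
    have hn : num ![t, 0, s, 0] = 2 * t * s := by
      have : num ![t, 0, s, 0] = t * s - Complex.I * (t + s) := by simp [num]
      rw [this]
      linear_combination (-1 : ℂ) * hd0
    simp only [hK, qq, hd, hn, Matrix.cons_val_zero, Pi.zero_apply] at e
    simp [ht0, hti, hs] at e

end Pool.Agent.Results.MP_5915c0_an.Minimal
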